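import Pool.Agent.MP_52bf41_ag.H12.Spec

/-! Cech cohomology of the structure sheaf: affine vanishing, Leray, the standard curve. -/

open AlgebraicGeometry CategoryTheory TopologicalSpace

namespace Pool.Agent.MP_52bf41_ag.H74

open H12

variable {C : Scheme.{0}} {ι κ : Type}

/-- The cocycle condition on all small open sets. -/
def Coc (U : ι → C.Opens) (c : ∀ i j, Γ(C, U i ⊓ U j)) : Prop :=
  ∀ i j l (V : C.Opens) (hi : V ≤ U i) (hj : V ≤ U j) (hl : V ≤ U l),
    res (le_inf hi hl) (c i l) = res (le_inf hi hj) (c i j) + res (le_inf hj hl) (c j l)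

/-- The coboundary condition on all small open sets. -/
def Bd (U : ι → C.Opens) (c : ∀ i j, Γ(C, U i ⊓ U j)) (b : ∀ i, Γ(C, U i)) : Prop :=
  ∀ i j (V : C.Opens) (hi : V ≤ U i) (hj : V ≤ U j),
    res (le_inf hi hj) (c i j) = res hi (b i) - res hj (b j)

theorem cob_iff (U : ι → C.Opens) : Cob U ↔ ∀ c, Coc U c → ∃ b, Bd U c b := by
  constructor
  · intro h c hc
    obtain ⟨b, hb⟩ := h c fun i j l => hc i j l _ (inf_le_left.trans inf_le_left)
      (inf_le_left.trans inf_le_right) inf_le_right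
    refine ⟨b, fun i j V hi hj => ?_⟩
    rw [hb, map_sub, res_res, res_res]
  · intro h c hc
    obtain ⟨b, hb⟩ := h c fun i j l V hi hj hl => by
      have := congrArg (res (le_inf (le_inf hi hj) hl : V ≤ U i ⊓ U j ⊓ U l)) (hc i j l)
      simpa only [map_add, res_res] using this
    refine ⟨b, fun i j => ?_⟩
    have := hb i j _ inf_le_left inf_le_right
    rwa [res_self] at this

theorem glue {V : C.Opens} (U : ι → C.Opens) (hU : ∀ i, U i ≤ V) (hc : V ≤ iSup U)
    (b : ∀ i, Γ(C, U i))
    (h : ∀ i j (W : C.Opens) (hi : W ≤ U i) (hj : W ≤ U j), res hi (b i) = res hj (b j)) :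
    ∃ c : Γ(C, V), ∀ i (W : C.Opens) (hi : W ≤ U i), res (hi.trans (hU i)) c = res hi (b i) := by
  obtain ⟨c, hc'⟩ := exists_glue U hU hc b fun i j => h i j _ _ _
  exact ⟨c, fun i W hi => by rw [← hc' i, res_res]⟩

theorem le_iSup_inf {V : C.Opens} {U : ι → C.Opens} (hc : V ≤ iSup U) :
    V ≤ ⨆ i, V ⊓ U i := by
  intro x hx
  obtain ⟨i, hi⟩ := Opens.mem_iSup.1 (hc hx)
  exact Opens.mem_iSup.2 ⟨i, hx, hi⟩

theorem eq_of_inf {V : C.Opens} (U : ι → C.Opens) (hc : V ≤ iSup U) {b b' : Γ(C, V)}
    (h : ∀ i, res (inf_le_left : V ⊓ U i ≤ V) b = res inf_le_left b') : b = b' :=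
  eq_of_cover (fun i => V ⊓ U i) (fun _ => inf_le_left) (le_iSup_inf hc) h

/-- Passing to a refinement. -/
theorem cob_of_refine (U : ι → C.Opens) (V : κ → C.Opens) (α : κ → ι) (hα : ∀ k, V k ≤ U (α k))
    (hc : ∀ i, U i ≤ iSup V) (h : Cob V) : Cob U := by
  rw [cob_iff] at h ⊢
  intro c hcoc
  obtain ⟨b', hb'⟩ := h (fun k l => res (inf_le_inf (hα k) (hα l)) (c (α k) (α l)))
    fun k l m W hk hl hm => by
      simp only [res_res]
      exact hcoc _ _ _ W (hk.trans (hα k)) (hl.trans (hα l)) (hm.trans (hα m))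
  have key : ∀ i, ∃ b : Γ(C, U i), ∀ k (W : C.Opens) (h1 : W ≤ U i) (h2 : W ≤ V k),
      res h1 b = res h2 (b' k) + res (le_inf h1 (h2.trans (hα k))) (c i (α k)) := by
    intro i
    obtain ⟨b, hb⟩ := glue (fun k => U i ⊓ V k) (fun _ => inf_le_left) (le_iSup_inf (hc i))
      (fun k => res inf_le_right (b' k) + res (inf_le_inf le_rfl (hα k)) (c i (α k)))
      fun k l W hk hl => by
        have e1 := hb' k l W (hk.trans inf_le_right) (hl.trans inf_le_right)
        have e2 := hcoc i (α k) (α l) W (hk.trans inf_le_left)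
          ((hk.trans inf_le_right).trans (hα k)) ((hl.trans inf_le_right).trans (hα l))
        simp only [map_add, res_res] at e1 ⊢
        linear_combination -e1 - e2
    refine ⟨b, fun k W h1 h2 => ?_⟩
    have := hb k W (le_inf h1 h2)
    simpa only [map_add, res_res] using this
  choose b hb using key
  refine ⟨b, fun i j W hi hj => eq_of_inf V (hi.trans (hc i)) fun k => ?_⟩
  have e1 := hb i k (W ⊓ V k) (inf_le_left.trans hi) inf_le_right
  have e2 := hb j k (W ⊓ V k) (inf_le_left.trans hj) inf_le_right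
  have e3 := hcoc i j (α k) (W ⊓ V k) (inf_le_left.trans hi) (inf_le_left.trans hj)
    (inf_le_right.trans (hα k))
  simp only [map_sub, res_res]
  linear_combination -e1 + e2 - e3

theorem away_surj {U V : C.Opens} (hU : IsAffineOpen U) (g : Γ(C, U)) (h : V ≤ U)
    (hV : V = C.basicOpen g) (x : Γ(C, V)) : ∃ (n : ℕ) (a : Γ(C, U)), res h a = res h g ^ n * x := by
  letI := (res h).toAlgebra
  haveI : IsLocalization.Away g Γ(C, V) := isAway_res hU g h hV
  obtain ⟨n, a, e⟩ := IsLocalization.Away.surj g x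
  exact ⟨n, a, by rw [mul_comm]; exact e.symm⟩

theorem away_zero {U V : C.Opens} (hU : IsAffineOpen U) (g : Γ(C, U)) (h : V ≤ U)
    (hV : V = C.basicOpen g) (x : Γ(C, U)) (hx : res h x = 0) : ∃ n : ℕ, g ^ n * x = 0 := by
  letI := (res h).toAlgebra
  haveI : IsLocalization.Away g Γ(C, V) := isAway_res hU g h hV
  obtain ⟨⟨_, n, rfl⟩, e⟩ := (IsLocalization.map_eq_zero_iff (Submonoid.powers g) Γ(C, V) x).1 hx
  exact ⟨n, e⟩

theorem uniform [Finite κ] {P : κ → ℕ → Prop} (hm : ∀ k n, P k n → P k (n + 1))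
    (h : ∀ k, ∃ n, P k n) : ∃ n, ∀ k, P k n := by
  choose n hn using h
  obtain ⟨N, hN⟩ := (Set.finite_range n).bddAbove
  refine ⟨N, fun k => ?_⟩
  exact Nat.le_induction (hn k) (fun m _ => hm k m) N (hN ⟨k, rfl⟩)

/-- Finite covers of an affine open set by basic open sets. -/
theorem cob_basic [Finite κ] {O : C.Opens} (hO : IsAffineOpen O) (f : κ → Γ(C, O))
    (hf : Ideal.span (Set.range f) = ⊤) : Cob fun k => C.basicOpen (f k) := by
  rw [cob_iff]
  intro c hc
  have le : ∀ k, C.basicOpen (f k) ≤ O := fun k => C.basicOpen_le _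
  let I : Ideal Γ(C, O) :=
    { carrier := {r | ∃ b : ∀ k, Γ(C, C.basicOpen (f k)), ∀ i j (V : C.Opens)
        (hi : V ≤ C.basicOpen (f i)) (hj : V ≤ C.basicOpen (f j)),
        res (hi.trans (le i)) r * res (le_inf hi hj) (c i j) = res hi (b i) - res hj (b j)}
      add_mem' := by
        rintro r r' ⟨b, hb⟩ ⟨b', hb'⟩
        refine ⟨fun k => b k + b' k, fun i j V hi hj => ?_⟩
        simp only [map_add]
        linear_combination hb i j V hi hj + hb' i j V hi hj
      zero_mem' := ⟨fun _ => 0, fun i j V hi hj => by simp⟩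
      smul_mem' := by
        rintro r r' ⟨b, hb⟩
        refine ⟨fun k => res (le k) r * b k, fun i j V hi hj => ?_⟩
        simp only [smul_eq_mul, map_mul, res_res]
        linear_combination res (hi.trans (le i)) r * hb i j V hi hj }
  have hI : ∀ l, f l ∈ I.radical := by
    intro l
    obtain ⟨N, hN⟩ := uniform (P := fun k n => ∃ a : Γ(C, C.basicOpen (f k)),
        res (inf_le_left : C.basicOpen (f k) ⊓ C.basicOpen (f l) ≤ _) a =
          res (inf_le_left.trans (le k)) (f l) ^ n * c k l)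
      (fun k n ⟨a, ha⟩ => ⟨res (le k) (f l) * a, by rw [map_mul, res_res, ha]; ring⟩)
      (fun k => by
        obtain ⟨n, a, ha⟩ := away_surj (hO.basicOpen (f k)) (res (le k) (f l)) inf_le_left
          (basicOpen_res _ _).symm (c k l)
        exact ⟨n, a, by rw [ha, res_res]⟩)
    choose a ha using hN
    obtain ⟨M, hM⟩ := uniform (κ := κ × κ) (P := fun p n =>
        res (inf_le_left.trans (le p.1) : C.basicOpen (f p.1) ⊓ C.basicOpen (f p.2) ≤ O) (f l) ^ n *
          (res inf_le_left (a p.1) - res inf_le_right (a p.2) -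
            res (inf_le_left.trans (le p.1)) (f l) ^ N * c p.1 p.2) = 0)
      (fun p n h => by rw [pow_succ', mul_assoc, h, mul_zero])
      (fun p => by
        have haff : IsAffineOpen (C.basicOpen (f p.1) ⊓ C.basicOpen (f p.2)) := by
          rw [← Scheme.basicOpen_mul]
          exact hO.basicOpen _
        refine away_zero haff _ inf_le_left (basicOpen_res _ _).symm _ ?_
        have h1 : C.basicOpen (f p.1) ⊓ C.basicOpen (f p.2) ⊓ C.basicOpen (f l) ≤
          C.basicOpen (f p.1) := inf_le_left.trans inf_le_left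
        have h2 : C.basicOpen (f p.1) ⊓ C.basicOpen (f p.2) ⊓ C.basicOpen (f l) ≤
          C.basicOpen (f p.2) := inf_le_left.trans inf_le_right
        have e1 := congrArg (res (le_inf h1 inf_le_right)) (ha p.1)
        have e2 := congrArg (res (le_inf h2 inf_le_right)) (ha p.2)
        have e3 := hc p.1 p.2 l _ h1 h2 inf_le_right
        simp only [map_sub, map_mul, map_pow, res_res] at e1 e2 ⊢
        rw [e1, e2, e3]
        ring)
    refine ⟨M + N, fun k => res (le k) (f l) ^ M * a k, fun i j V hi hj => ?_⟩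
    have e := congrArg (res (le_inf hi hj)) (hM (i, j))
    simp only [map_sub, map_mul, map_pow, res_res, map_zero] at e ⊢
    linear_combination -e
  have h1 : I.radical = ⊤ := by
    rw [eq_top_iff, ← hf, Ideal.span_le]
    rintro _ ⟨l, rfl⟩
    exact hI l
  have h2 : (1 : Γ(C, O)) ∈ I := by
    rw [Ideal.radical_eq_top.1 h1]
    trivial
  obtain ⟨b, hb⟩ := h2
  exact ⟨b, fun i j V hi hj => by simpa using hb i j V hi hj⟩

/-- Cech `H^1` vanishes on affine open sets. -/
theorem cob_affine {O : C.Opens} (hO : IsAffineOpen O) (U : ι → C.Opens) (hU : ∀ i, U i ≤ O)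
    (hc : O ≤ iSup U) : Cob U := by
  have h1 : ∀ x : O, ∃ (i : ι) (f : Γ(C, O)), C.basicOpen f ≤ U i ∧ x.1 ∈ C.basicOpen f := by
    intro x
    obtain ⟨i, hi⟩ := Opens.mem_iSup.1 (hc x.2)
    obtain ⟨f, hf1, hf2⟩ := hO.exists_basicOpen_le ⟨x.1, hi⟩ x.2
    exact ⟨i, f, hf1, hf2⟩
  choose α f hf hx using h1
  obtain ⟨s, hs⟩ := hO.isCompact.elim_finite_subcover (fun x : O => (C.basicOpen (f x) : Set C))
    (fun x => (C.basicOpen (f x)).isOpen) (fun y hy => Set.mem_iUnion.2 ⟨⟨y, hy⟩, hx _⟩)
  have hcov : O ≤ ⨆ k : s, C.basicOpen (f k.1) := by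
    intro y hy
    obtain ⟨x, hx1, hx2⟩ := Set.mem_iUnion₂.1 (hs hy)
    exact Opens.mem_iSup.2 ⟨⟨x, hx1⟩, hx2⟩
  refine cob_of_refine U (fun k : s => C.basicOpen (f k.1)) (fun k => α k.1) (fun k => hf k.1)
    (fun i => (hU i).trans hcov) (cob_basic hO (fun k : s => f k.1) ?_)
  rw [← hO.self_le_iSup_basicOpen_iff]
  refine hcov.trans (iSup_le fun k => ?_)
  exact le_iSup (fun g : Set.range (fun k : s => f k.1) => C.basicOpen g.1) ⟨_, k, rfl⟩

theorem leray : SLeray := by
  intro C κ W hW hcov hcob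
  rw [h1Zero_iff]
  intro ι U hU
  rw [cob_iff] at hcob ⊢
  intro c hc
  have h1 : ∀ k, ∃ b : ∀ i, Γ(C, W k ⊓ U i), ∀ i j (V : C.Opens) (hk : V ≤ W k) (hi : V ≤ U i)
      (hj : V ≤ U j), res (le_inf hi hj) (c i j) =
        res (le_inf hk hi) (b i) - res (le_inf hk hj) (b j) := by
    intro k
    obtain ⟨b, hb⟩ := (cob_iff _).1 (cob_affine (hW k) (fun i => W k ⊓ U i) (fun _ => inf_le_left)
      (le_iSup_inf (hU ▸ le_top)))
      (fun i j => res (inf_le_inf inf_le_right inf_le_right) (c i j))
      fun i j l V hi hj hl => by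
        simp only [res_res]
        exact hc i j l V (hi.trans inf_le_right) (hj.trans inf_le_right) (hl.trans inf_le_right)
    refine ⟨b, fun i j V hk hi hj => ?_⟩
    have := hb i j V (le_inf hk hi) (le_inf hk hj)
    simpa only [res_res] using this
  choose b hb using h1
  have h2 : ∀ k l, ∃ d : Γ(C, W k ⊓ W l), ∀ i (V : C.Opens) (hk : V ≤ W k) (hl : V ≤ W l)
      (hi : V ≤ U i), res (le_inf hk hl) d =
        res (le_inf hk hi) (b k i) - res (le_inf hl hi) (b l i) := by
    intro k l
    obtain ⟨d, hd⟩ := glue (fun i => W k ⊓ W l ⊓ U i) (fun _ => inf_le_left)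
      (le_iSup_inf (hU ▸ le_top))
      (fun i => res (inf_le_inf inf_le_left le_rfl) (b k i) -
        res (inf_le_inf inf_le_right le_rfl) (b l i))
      fun i j V hi hj => by
        have e1 := hb k i j V (hi.trans (inf_le_left.trans inf_le_left)) (hi.trans inf_le_right)
          (hj.trans inf_le_right)
        have e2 := hb l i j V (hi.trans (inf_le_left.trans inf_le_right)) (hi.trans inf_le_right)
          (hj.trans inf_le_right)
        simp only [map_sub, res_res]
        linear_combination e2 - e1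
    refine ⟨d, fun i V hk hl hi => ?_⟩
    have := hd i V (le_inf (le_inf hk hl) hi)
    simpa only [map_sub, res_res] using this
  choose d hd using h2
  obtain ⟨e, he⟩ := hcob d fun k l m V hk hl hm => eq_of_inf U (hU ▸ le_top) fun i => by
    have e1 := hd k m i (V ⊓ U i) (inf_le_left.trans hk) (inf_le_left.trans hm) inf_le_right
    have e2 := hd k l i (V ⊓ U i) (inf_le_left.trans hk) (inf_le_left.trans hl) inf_le_right
    have e3 := hd l m i (V ⊓ U i) (inf_le_left.trans hl) (inf_le_left.trans hm) inf_le_right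
    simp only [map_add, res_res]
    linear_combination e1 - e2 - e3
  have h3 : ∀ i, ∃ B : Γ(C, U i), ∀ k (V : C.Opens) (hk : V ≤ W k) (hi : V ≤ U i),
      res hi B = res (le_inf hk hi) (b k i) - res hk (e k) := by
    intro i
    obtain ⟨B, hB⟩ := glue (fun k => U i ⊓ W k) (fun _ => inf_le_left)
      (le_iSup_inf (hcov ▸ le_top))
      (fun k => res (le_inf inf_le_right inf_le_left) (b k i) - res inf_le_right (e k))
      fun k l V hk hl => by
        have e1 := hd k l i V (hk.trans inf_le_right) (hl.trans inf_le_right)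
          (hk.trans inf_le_left)
        have e2 := he k l V (hk.trans inf_le_right) (hl.trans inf_le_right)
        simp only [map_sub, res_res]
        linear_combination e2 - e1
    refine ⟨B, fun k V hk hi => ?_⟩
    have := hB k V (le_inf hi hk)
    simpa only [map_sub, res_res] using this
  choose B hB using h3
  refine ⟨B, fun i j V hi hj => eq_of_inf W (hcov ▸ le_top) fun k => ?_⟩
  have e1 := hB i k (V ⊓ W k) inf_le_right (inf_le_left.trans hi)
  have e2 := hB j k (V ⊓ W k) inf_le_right (inf_le_left.trans hj)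
  have e3 := hb k i j (V ⊓ W k) inf_le_right (inf_le_left.trans hi) (inf_le_left.trans hj)
  simp only [map_sub, res_res]
  linear_combination e3 - e1 + e2

/-- A cover with a central chart containing all overlaps of the other charts. -/
theorem cob_star (U : ι → C.Opens) (o : ι) (hU : ∀ i j, i ≠ j → U i ⊓ U j ≤ U o)
    (h : ∀ x : ∀ j, Γ(C, U o ⊓ U j), x o = 0 → ∃ b : ∀ i, Γ(C, U i),
      ∀ j, x j = res inf_le_left (b o) - res inf_le_right (b j)) : Cob U := by
  rw [cob_iff]
  intro c hc
  have h0 : ∀ i (V : C.Opens) (hi : V ≤ U i), res (le_inf hi hi) (c i i) = 0 := by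
    intro i V hi
    linear_combination -hc i i i V hi hi hi
  obtain ⟨b, hb⟩ := h (c o) (by simpa using h0 o _ (inf_le_left : U o ⊓ U o ≤ _))
  refine ⟨b, fun i j V hi hj => ?_⟩
  by_cases hij : i = j
  · subst hij
    rw [h0 i V hi, sub_self]
  · have ho : V ≤ U o := (le_inf hi hj).trans (hU i j hij)
    have e1 := congrArg (res (le_inf ho hi)) (hb i)
    have e2 := congrArg (res (le_inf ho hj)) (hb j)
    have e3 := hc o i j V ho hi hj
    simp only [map_sub, res_res] at e1 e2
    linear_combination e2 - e1 - e3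

theorem h1Std (hExt : SExt) (hSec : SSec) (hL : SLeray) : SH1Std := by
  classical
  rintro A _ D F q t hq ⟨S⟩
  obtain ⟨x1, x2, x3⟩ := hExt A D F q t S hq
  have ext : ∀ a b, a ≠ b → ∃ v, res (inf_le_left : S.O0 ⊓ S.O b ≤ _) (S.u a) =
      res inf_le_right v := by
    rintro (_ | i) (_ | l) hab
    · exact absurd rfl hab
    · exact ⟨_, x1 l⟩
    · obtain ⟨v, hv⟩ := x2 i
      exact ⟨_, hv⟩
    · exact x3 i l fun h => hab (congrArg some h)
  have pol : ∀ a (x : Γ(F.C, S.O0 ⊓ S.O a)), ∃ (p : Γ(F.C, S.O0)) (y : Γ(F.C, S.O a)),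
      x = res inf_le_left p - res inf_le_right y ∧ ∀ b, a ≠ b →
        ∃ v, res (inf_le_left : S.O0 ⊓ S.O b ≤ _) p = res inf_le_right v := by
    intro a x
    obtain ⟨n, y, hy⟩ := away_surj (S.aff a) (S.s a) inf_le_right (S.inter a) x
    have hus := S.us a
    induction n generalizing x y with
    | zero => exact ⟨0, -y, by simpa using hy.symm, fun b _ => ⟨0, by simp⟩⟩
    | succ n ih =>
      obtain ⟨α, hα⟩ := (hSec A D F q t S hq a).2.1.2 (Ideal.Quotient.mk _ y)
      obtain ⟨y', hy'⟩ := Ideal.mem_span_singleton'.1 (Ideal.Quotient.eq.1 hα)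
      have e := congrArg (res (inf_le_right : S.O0 ⊓ S.O a ≤ _)) hy'
      simp only [map_mul, map_sub, res_alg] at e
      have hp : (res (inf_le_left : S.O0 ⊓ S.O a ≤ _) (S.u a) * res inf_le_right (S.s a)) ^ n =
        1 := by rw [hus, one_pow]
      obtain ⟨p, y'', h1, h2⟩ := ih
        (x - alg F.π _ α * res inf_le_left (S.u a) ^ (n + 1)) (-y') (by
          rw [map_neg]
          linear_combination (-res inf_le_left (S.u a)) * e + res inf_le_left (S.u a) * hy +
            (res inf_le_right y' + res inf_le_right (S.s a) ^ n * x) * hus +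
            alg F.π _ α * res inf_le_left (S.u a) * hp)
      refine ⟨p + alg F.π _ α * S.u a ^ (n + 1), y'', ?_, fun b hab => ?_⟩
      · simp only [map_add, map_mul, map_pow, res_alg]
        linear_combination h1
      · obtain ⟨v, hv⟩ := h2 b hab
        obtain ⟨w, hw⟩ := ext a b hab
        refine ⟨v + alg F.π _ α * w ^ (n + 1), ?_⟩
        simp only [map_add, map_mul, map_pow, res_alg, hv, hw]
  let W : Option (Option (Fin D)) → F.C.Opens := fun k => Option.rec S.O0 S.O k
  refine hL F.C _ W ?_ ?_ (cob_star W none ?_ ?_)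
  · rintro (_ | a)
    · exact S.aff0
    · exact S.aff a
  · rw [eq_top_iff, ← S.cover]
    exact sup_le (le_iSup W none) (iSup_le fun a => le_iSup W (some a))
  · rintro (_ | a) (_ | b) h
    · exact inf_le_left
    · exact inf_le_left
    · exact inf_le_right
    · exact S.disj a b fun e => h (congrArg some e)
  · intro x hx
    choose p y h1 h2 using fun a => pol a (x (some a))
    have h3 : ∀ a b, ∃ v : Γ(F.C, S.O b), a ≠ b →
        res (inf_le_left : S.O0 ⊓ S.O b ≤ _) (p a) = res inf_le_right v := by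
      intro a b
      by_cases hab : a = b
      · exact ⟨0, fun h => absurd hab h⟩
      · obtain ⟨v, hv⟩ := h2 a b hab
        exact ⟨v, fun _ => hv⟩
    choose v hv using h3
    refine ⟨fun k => Option.rec (∑ a, p a)
      (fun b => ∑ a ∈ Finset.univ.erase b, v a b + y b) k, ?_⟩
    rintro (_ | b)
    · rw [hx]
      exact (sub_self _).symm
    · change x (some b) = res (inf_le_left : S.O0 ⊓ S.O b ≤ _) (∑ a, p a) -
        res (inf_le_right : S.O0 ⊓ S.O b ≤ _) (∑ a ∈ Finset.univ.erase b, v a b + y b)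
      rw [← Finset.add_sum_erase _ _ (Finset.mem_univ b), map_add, map_add, map_sum, map_sum,
        Finset.sum_congr rfl fun a ha => hv a b (Finset.ne_of_mem_erase ha)]
      linear_combination h1 b

end Pool.Agent.MP_52bf41_ag.H74
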